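import Mathlib
import Pool.Agent.LawsFI.Core
import Pool.Agent.LawsFL.Grp
import Pool.Agent.LawsFL.Test

set_option autoImplicit false

/-!
For every prime `p` the variety `𝔄_p³` has exactly `2^ℵ₀` subvarieties.

In `𝔄_p³` the laws `[[[x₀,x₁],[x₂,x₃]], [z₀^p,z₁], [z₁^p,z₂], …, [z_q^p,z₀]] = 1`, `q = 1, 2, …`, are
independent: for every `q` there is a group in `𝔄_p³` which satisfies all of them except the `q`-th.
-/

namespace Pool.Agent.Results.MP_ae074a_al.Continuum

open Pool.Agent.LawsFI (F cm map_cm)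
open Pool.Agent.LawsFL (wrd GN GN_wrd GN_not_wrd GN_series)

universe u

/-- the word `w` is a law of the group `G`: its value is trivial under every substitution of
elements of `G` for the letters -/
def IsLaw (w : FreeGroup ℕ) (G : Type u) [Group G] : Prop :=
  ∀ f : FreeGroup ℕ →* G, f w = 1

/-- classes of groups -/
abbrev GroupClass := (G : Type u) → Group G → Prop

/-- the variety defined by the set `W` of words: the class of all groups in which all elements of
`W` are laws -/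
def variety (W : Set (FreeGroup ℕ)) : GroupClass.{u} := fun G _ => ∀ w ∈ W, IsLaw w G

/-- the class `𝔄_p³`: the groups `G` with a normal series `1 ≤ G₁ ≤ G₂ ≤ G`, all terms normal in
`G`, in which the factors `G₁`, `G₂ / G₁` and `G / G₂` are abelian of exponent dividing `p` -/
def Ap3 (p : ℕ) : GroupClass.{u} := fun G _ =>
  ∃ G₁ G₂ : Subgroup G, G₁.Normal ∧ G₂.Normal ∧ G₁ ≤ G₂ ∧
    (∀ x ∈ G₁, ∀ y ∈ G₁, x * y = y * x) ∧ (∀ x ∈ G₁, x ^ p = 1) ∧
    (∀ x ∈ G₂, ∀ y ∈ G₂, x * y * x⁻¹ * y⁻¹ ∈ G₁) ∧ (∀ x ∈ G₂, x ^ p ∈ G₁) ∧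
    (∀ x y : G, x * y * x⁻¹ * y⁻¹ ∈ G₂) ∧ (∀ x : G, x ^ p ∈ G₂)

/-- the set of all subvarieties of `𝔄_p³` -/
def subvarieties (p : ℕ) : Set GroupClass.{u} :=
  {V | (∃ W : Set (FreeGroup ℕ), V = variety W) ∧ ∀ (G : Type u) (h : Group G), V G h → Ap3 p G h}

/-! ### the laws of `𝔄_p³` -/

/-- the verbal subgroup of `H` for the variety of abelian groups of exponent `p` -/
def P (p : ℕ) {G : Type u} [Group G] (H : Subgroup G) : Subgroup G :=
  Subgroup.closure ({x | ∃ a ∈ H, ∃ b ∈ H, x = a * b * a⁻¹ * b⁻¹} ∪ {x | ∃ a ∈ H, x = a ^ p})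

theorem P_comm {p : ℕ} {G : Type u} [Group G] {H : Subgroup G} {a b : G} (ha : a ∈ H) (hb : b ∈ H) :
    a * b * a⁻¹ * b⁻¹ ∈ P p H := Subgroup.subset_closure (Or.inl ⟨a, ha, b, hb, rfl⟩)

theorem P_pow {p : ℕ} {G : Type u} [Group G] {H : Subgroup G} {a : G} (ha : a ∈ H) :
    a ^ p ∈ P p H := Subgroup.subset_closure (Or.inr ⟨a, ha, rfl⟩)

theorem P_le {p : ℕ} {G : Type u} [Group G] {H K : Subgroup G}
    (h1 : ∀ a ∈ H, ∀ b ∈ H, a * b * a⁻¹ * b⁻¹ ∈ K) (h2 : ∀ a ∈ H, a ^ p ∈ K) : P p H ≤ K := by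
  unfold P
  rw [Subgroup.closure_le]
  rintro x (⟨a, ha, b, hb, rfl⟩ | ⟨a, ha, rfl⟩)
  · exact h1 a ha b hb
  · exact h2 a ha

theorem P_normal {p : ℕ} {G : Type u} [Group G] {H : Subgroup G} (hH : H.Normal) :
    (P p H).Normal := by
  constructor
  intro n hn g
  have : P p H ≤ (P p H).comap (MulAut.conj g).toMonoidHom := by
    apply P_le
    · intro a ha b hb
      rw [Subgroup.mem_comap]
      have : (MulAut.conj g).toMonoidHom (a * b * a⁻¹ * b⁻¹) =
          (g * a * g⁻¹) * (g * b * g⁻¹) * (g * a * g⁻¹)⁻¹ * (g * b * g⁻¹)⁻¹ := by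
        change g * (a * b * a⁻¹ * b⁻¹) * g⁻¹ = _
        group
      rw [this]
      exact P_comm (hH.conj_mem a ha g) (hH.conj_mem b hb g)
    · intro a ha
      rw [Subgroup.mem_comap]
      have : (MulAut.conj g).toMonoidHom (a ^ p) = (g * a * g⁻¹) ^ p := by
        simp
      rw [this]
      exact P_pow (hH.conj_mem a ha g)
  have h := this hn
  simpa using h

theorem P_map {p : ℕ} {G : Type u} {G' : Type*} [Group G] [Group G'] (φ : G →* G')
    {H : Subgroup G} {H' : Subgroup G'} (h : ∀ x ∈ H, φ x ∈ H') : ∀ x ∈ P p H, φ x ∈ P p H' := by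
  have : P p H ≤ (P p H').comap φ := by
    apply P_le
    · intro a ha b hb
      rw [Subgroup.mem_comap]
      have : φ (a * b * a⁻¹ * b⁻¹) = φ a * φ b * (φ a)⁻¹ * (φ b)⁻¹ := by simp
      rw [this]
      exact P_comm (h a ha) (h b hb)
    · intro a ha
      rw [Subgroup.mem_comap, map_pow]
      exact P_pow (h a ha)
  exact fun x hx => this hx

section comb

variable {G : Type u} [Group G]

def ev : F →* F := FreeGroup.lift (fun i => FreeGroup.of (2 * i))
def od : F →* F := FreeGroup.lift (fun i => FreeGroup.of (2 * i + 1))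

/-- two substitutions on disjoint letters -/
def comb (f g : F →* G) : F →* G := FreeGroup.lift (fun i =>
  if i % 2 = 0 then f (FreeGroup.of (i / 2)) else g (FreeGroup.of (i / 2)))

theorem comb_ev (f g : F →* G) (w : F) : comb f g (ev w) = f w := by
  have : (comb f g).comp ev = f := by
    ext i
    simp [comb, ev]
  exact DFunLike.congr_fun this w

theorem comb_od (f g : F →* G) (w : F) : comb f g (od w) = g w := by
  have : (comb f g).comp od = g := by
    ext i
    have h1 : (2 * i + 1) % 2 = 1 := by omega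
    have h2 : (2 * i + 1) / 2 = i := by omega
    simp [comb, od, h1, h2]
  exact DFunLike.congr_fun this w

/-- elements of `H` are values of words in `K` -/
def Val (K : Subgroup F) (H : Subgroup G) : Prop := ∀ x ∈ H, ∃ φ : F →* G, ∃ v ∈ K, φ v = x

theorem Val_P {p : ℕ} {K : Subgroup F} {H : Subgroup G} (hK : ∀ ψ : F →* F, ∀ x ∈ K, ψ x ∈ K)
    (hV : Val K H) : Val (P p K) (P p H) := by
  intro x hx
  unfold P at hx
  induction hx using Subgroup.closure_induction with
  | mem x hx =>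
    rcases hx with ⟨a, ha, b, hb, rfl⟩ | ⟨a, ha, rfl⟩
    · obtain ⟨f, v, hv, rfl⟩ := hV a ha
      obtain ⟨g, w, hw, rfl⟩ := hV b hb
      refine ⟨comb f g, ev v * od w * (ev v)⁻¹ * (od w)⁻¹, P_comm (hK _ _ hv) (hK _ _ hw), ?_⟩
      simp [comb_ev, comb_od]
    · obtain ⟨f, v, hv, rfl⟩ := hV a ha
      exact ⟨f, v ^ p, P_pow hv, map_pow _ _ _⟩
  | one => exact ⟨1, 1, Subgroup.one_mem _, map_one _⟩
  | mul x y _ _ hx hy =>
    obtain ⟨f, v, hv, rfl⟩ := hx
    obtain ⟨g, w, hw, rfl⟩ := hy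
    refine ⟨comb f g, ev v * od w, Subgroup.mul_mem _ (P_map ev (hK ev) v hv)
      (P_map od (hK od) w hw), ?_⟩
    rw [map_mul, comb_ev, comb_od]
  | inv x _ hx =>
    obtain ⟨f, v, hv, rfl⟩ := hx
    exact ⟨f, v⁻¹, Subgroup.inv_mem _ hv, map_inv _ _⟩

theorem Val_top : Val (⊤ : Subgroup F) (⊤ : Subgroup G) := fun x _ =>
  ⟨FreeGroup.lift (fun _ => x), FreeGroup.of 0, Subgroup.mem_top _, by simp⟩

end comb

/-- the laws of `𝔄_p³` -/
def W0 (p : ℕ) : Set F :=
  {w | (∃ v ∈ P p (P p (⊤ : Subgroup F)), ∃ v' ∈ P p (P p (⊤ : Subgroup F)),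
    w = v * v' * v⁻¹ * v'⁻¹) ∨ ∃ v ∈ P p (P p (⊤ : Subgroup F)), w = v ^ p}

theorem W0_law {p : ℕ} {G : Type u} [h : Group G] (hG : Ap3 p G h) {w : F} (hw : w ∈ W0 p) :
    IsLaw w G := by
  obtain ⟨G₁, G₂, h1, h2, h3, h4, h5, h6, h7, h8, h9⟩ := hG
  intro φ
  have e1 : ∀ x ∈ P p (⊤ : Subgroup F), φ x ∈ G₂ := by
    have : P p (⊤ : Subgroup F) ≤ G₂.comap φ := by
      apply P_le
      · intro a _ b _
        rw [Subgroup.mem_comap]
        simpa using h8 (φ a) (φ b)
      · intro a _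
        rw [Subgroup.mem_comap, map_pow]
        exact h9 _
    exact fun x hx => this hx
  have e2 : ∀ x ∈ P p (P p (⊤ : Subgroup F)), φ x ∈ G₁ := by
    have : P p (P p (⊤ : Subgroup F)) ≤ G₁.comap φ := by
      apply P_le
      · intro a ha b hb
        rw [Subgroup.mem_comap]
        simpa using h6 (φ a) (e1 a ha) (φ b) (e1 b hb)
      · intro a ha
        rw [Subgroup.mem_comap, map_pow]
        exact h7 _ (e1 a ha)
    exact fun x hx => this hx
  rcases hw with ⟨v, hv, v', hv', rfl⟩ | ⟨v, hv, rfl⟩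
  · simp only [map_mul, map_inv]
    rw [h4 _ (e2 v hv) _ (e2 v' hv')]
    group
  · rw [map_pow]
    exact h5 _ (e2 v hv)

theorem Ap3_of_W0 {p : ℕ} {G : Type u} [h : Group G] (hG : ∀ w ∈ W0 p, IsLaw w G) : Ap3 p G h := by
  have hn2 : (P p (⊤ : Subgroup G)).Normal := P_normal inferInstance
  have hn1 : (P p (P p (⊤ : Subgroup G))).Normal := P_normal hn2
  have hv : Val (P p (P p (⊤ : Subgroup F))) (P p (P p (⊤ : Subgroup G))) := by
    apply Val_P
    · intro ψ
      exact P_map ψ (fun x _ => Subgroup.mem_top _)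
    · apply Val_P
      · intro ψ x _; exact Subgroup.mem_top _
      · exact Val_top
  have hinv : ∀ ψ : F →* F, ∀ x ∈ P p (P p (⊤ : Subgroup F)), ψ x ∈ P p (P p (⊤ : Subgroup F)) :=
    fun ψ => P_map ψ (P_map ψ (fun x _ => Subgroup.mem_top _))
  refine ⟨P p (P p ⊤), P p ⊤, hn1, hn2, ?_, ?_, ?_, ?_, ?_, ?_, ?_⟩
  · apply P_le
    · intro a ha b hb
      exact Subgroup.mul_mem _ (Subgroup.mul_mem _ (Subgroup.mul_mem _ ha hb)
        (Subgroup.inv_mem _ ha)) (Subgroup.inv_mem _ hb)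
    · intro a ha
      exact Subgroup.pow_mem _ ha _
  · intro x hx y hy
    obtain ⟨f, v, hv1, rfl⟩ := hv x hx
    obtain ⟨g, w, hw1, rfl⟩ := hv y hy
    have h1 := hG (ev v * od w * (ev v)⁻¹ * (od w)⁻¹)
      (Or.inl ⟨ev v, hinv _ _ hv1, od w, hinv _ _ hw1, rfl⟩) (comb f g)
    simp only [map_mul, map_inv, comb_ev, comb_od] at h1
    rw [mul_inv_eq_one, mul_inv_eq_iff_eq_mul] at h1
    exact h1
  · intro x hx
    obtain ⟨f, v, hv1, rfl⟩ := hv x hx
    rw [← map_pow]
    exact hG (v ^ p) (Or.inr ⟨v, hv1, rfl⟩) f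
  · intro x hx y hy
    exact P_comm hx hy
  · intro x hx
    exact P_pow hx
  · intro x y
    exact P_comm (Subgroup.mem_top _) (Subgroup.mem_top _)
  · intro x
    exact P_pow (Subgroup.mem_top _)

/-! ### the subvarieties -/

theorem law_ulift {w : F} {G : Type} [Group G] (h : ∀ φ : F →* G, φ w = 1) :
    IsLaw w (ULift.{u} G) := by
  intro f
  have h1 := h ((MulEquiv.ulift (α := G)).toMonoidHom.comp f)
  apply (MulEquiv.ulift (α := G)).injective
  simpa using h1

theorem not_law_ulift {w : F} {G : Type} [Group G] (h : ∃ φ : F →* G, φ w ≠ 1) :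
    ¬ IsLaw w (ULift.{u} G) := by
  intro hl
  obtain ⟨φ, hφ⟩ := h
  apply hφ
  have h1 := hl ((MulEquiv.ulift (α := G)).symm.toMonoidHom.comp φ)
  have h2 := congrArg (MulEquiv.ulift (α := G)) h1
  simpa using h2

/-- the laws of the subvariety defined by a set of natural numbers -/
def WI (p : ℕ) (I : Set ℕ) : Set F := {w | w ∈ W0 p ∨ ∃ q ∈ I, w = wrd p (q + 1)}

theorem mem_sub (p : ℕ) (I : Set ℕ) : variety.{u} (WI p I) ∈ subvarieties.{u} p :=
  ⟨⟨_, rfl⟩, fun _ _ h => Ap3_of_W0 (fun w hw => h w (Or.inl hw))⟩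

theorem GN_mem {p : ℕ} [Fact p.Prime] {q : ℕ} {J : Set ℕ} (hq : q ∉ J) :
    variety.{u} (WI p J) (ULift.{u} (GN p (q + 1 + 1))) inferInstance := by
  rintro w (hw | ⟨q', hq', rfl⟩)
  · apply law_ulift
    exact W0_law (GN_series (p := p) (q + 1 + 1)) hw
  · apply law_ulift
    intro φ
    apply GN_wrd
    intro h
    apply hq
    have : q' = q := by omega
    rwa [← this]

theorem GN_notMem {p : ℕ} [Fact p.Prime] {q : ℕ} {I : Set ℕ} (hq : q ∈ I) :
    ¬ variety.{u} (WI p I) (ULift.{u} (GN p (q + 1 + 1))) inferInstance := by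
  intro h
  exact not_law_ulift (GN_not_wrd (p := p) (N := q + 1) (by omega)) (h _ (Or.inr ⟨q, hq, rfl⟩))

theorem WI_le {p : ℕ} [Fact p.Prime] {I J : Set ℕ}
    (h : variety.{u} (WI p I) = variety.{u} (WI p J)) : I ⊆ J := by
  intro q hq
  by_contra hJ
  have h1 := GN_mem.{u} (p := p) hJ
  rw [← h] at h1
  exact GN_notMem hq h1

theorem WI_inj {p : ℕ} [Fact p.Prime] : Function.Injective
    (fun I : Set ℕ => (⟨variety.{u} (WI p I), mem_sub p I⟩ : subvarieties.{u} p)) := by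
  intro I J h
  have h' : variety.{u} (WI p I) = variety.{u} (WI p J) := congrArg Subtype.val h
  exact Set.Subset.antisymm (WI_le h') (WI_le h'.symm)

/-- the laws of a class -/
def laws (V : GroupClass.{u}) : Set F := {w | ∀ (G : Type u) (h : Group G), V G h → IsLaw w G}

theorem laws_inj (p : ℕ) : Function.Injective
    (fun V : subvarieties.{u} p => laws V.1) := by
  have key : ∀ V : subvarieties.{u} p, V.1 = variety (laws V.1) := by
    rintro ⟨V, ⟨W, rfl⟩, hV⟩
    funext G h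
    apply propext
    constructor
    · intro hG w hw
      exact hw G h hG
    · intro hG w hw
      apply hG w
      intro G' h' hG'
      exact hG' w hw
  intro V V' h
  apply Subtype.ext
  rw [key V, key V']
  exact congrArg variety h

/-- **The cardinality of the set of subvarieties of `𝔄_p³` is `2^ℵ₀`, for every prime `p`.** -/
theorem result (p : ℕ) (hp : p.Prime) :
    Cardinal.mk (subvarieties.{u} p) = 2 ^ Cardinal.aleph0 := by
  have : Fact p.Prime := ⟨hp⟩
  apply le_antisymm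
  · have h1 := Cardinal.lift_mk_le_lift_mk_of_injective (laws_inj.{u} p)
    have h2 : Cardinal.mk (Set F) = 2 ^ Cardinal.aleph0 := by
      rw [Cardinal.mk_set]
      congr 1
      exact Cardinal.mk_eq_aleph0 F
    rw [h2] at h1
    simpa using h1
  · have h1 := Cardinal.lift_mk_le_lift_mk_of_injective (WI_inj.{u} (p := p))
    have h2 : Cardinal.mk (Set ℕ) = 2 ^ Cardinal.aleph0 := by
      rw [Cardinal.mk_set, Cardinal.mk_nat]
    rw [h2] at h1
    simpa using h1

end Pool.Agent.Results.MP_ae074a_al.Continuum
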